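import Pool.Agent.Helper213.Div.Ord5

/-!
# Measurable division of the 2-sphere into three congruent pieces: no congruence of order three

In a partition of the sphere into three Lebesgue measurable pieces which are pairwise congruent by
rotations, no rotation `g` with `g³ = 1` carries one of the pieces onto another one.  The almost
everywhere version: if `A`, `ρ(A)`, `τ(A)` is a partition up to null sets and `ρ³ = 1`, then `ρτ`
has finite order.
-/

set_option autoImplicit false

open MeasureTheory Matrix Set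

namespace Pool.Agent.Results.MP_fdbf44_an.OrderThree

/-- 3 by 3 real matrices. -/
abbrev M3 : Type := Matrix (Fin 3) (Fin 3) ℝ

/-- The unit sphere of `ℝ³`. -/
abbrev S2 : Type := Metric.sphere (0 : EuclideanSpace ℝ (Fin 3)) 1

/-- Borel sets of the sphere. -/
instance borelS2 : MeasurableSpace S2 := Subtype.instMeasurableSpace

/-- Rotation invariant surface measure. -/
noncomputable def surf : Measure S2 := (volume : Measure (EuclideanSpace ℝ (Fin 3))).toSphere

/-- Rotation matrices. -/
def IsRotation (g : M3) : Prop := gᵀ * g = 1 ∧ g.det = 1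

/-- `x = g y` for points `x`, `y` of the sphere. -/
def IsImage (g : M3) (y x : S2) : Prop := x.1 = WithLp.toLp 2 (g *ᵥ y.1.ofLp)

/-- The image `g(A)` of `A` under the linear map with matrix `g`. -/
def move (g : M3) (A : Set S2) : Set S2 := {x | ∃ y ∈ A, IsImage g y x}

/-- `A 0`, `A 1`, `A 2` are Lebesgue measurable, pairwise disjoint, have union the sphere, and any
two of them are congruent by a rotation. -/
def IsDivision (A : Fin 3 → Set S2) : Prop :=
  (∀ i, NullMeasurableSet (A i) surf) ∧ (∀ i j, i ≠ j → Disjoint (A i) (A j)) ∧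
    (∀ x, ∃ i, x ∈ A i) ∧ ∀ i j, ∃ g : M3, IsRotation g ∧ move g (A i) = A j

/-- `A` is Lebesgue measurable, and `A`, `B`, `C` are, up to null sets, pairwise disjoint with
union the whole sphere. -/
def PartitionAE (A B C : Set S2) : Prop :=
  NullMeasurableSet A surf ∧ surf (A ∩ B) = 0 ∧ surf (A ∩ C) = 0 ∧ surf (B ∩ C) = 0 ∧
    surf (A ∪ B ∪ C)ᶜ = 0

open Pool.Agent.Helper213.Div in
/-- underlying orthogonal matrix -/
def tO (g : M3) (h : IsRotation g) : Pool.Agent.Helper213.Div.O3 :=
  ⟨g, (Matrix.mem_orthogonalGroup_iff' (A := g)).2 h.1⟩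

open Pool.Agent.Helper213.Div in
theorem move_eq (M : Pool.Agent.Helper213.Div.O3) (A : Set S2) : move M.1 A = actH (isoE M) '' A := by
  ext y
  simp only [move, IsImage, Set.mem_ofPred_eq, Set.mem_image]
  constructor
  · rintro ⟨x, hx, hy⟩
    exact ⟨x, hx, by ext1; rw [actH_coe, isoE_apply, hy]⟩
  · rintro ⟨x, hx, rfl⟩
    exact ⟨x, hx, by rw [actH_coe, isoE_apply]⟩

open Pool.Agent.Helper213.Div in
theorem pow_isoE (g : M3) (h : IsRotation g) (n : ℕ) (hn : g ^ n = 1) : isoE (tO g h) ^ n = 1 := by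
  rw [← map_pow]
  have : tO g h ^ n = 1 := by
    apply Subtype.ext
    show ((tO g h ^ n : Pool.Agent.Helper213.Div.O3) : M3) = 1
    rw [SubmonoidClass.coe_pow]
    exact hn
  rw [this, map_one]

open Pool.Agent.Helper213.Div in
theorem main (A B C : Set S2) (hA : NullMeasurableSet A surf) (g h : M3) (hg : IsRotation g)
    (hh : IsRotation h) (hgA : move g A = B) (hhA : move h A = C) (hAB : Disjoint A B)
    (hAC : Disjoint A C) (hBC : Disjoint B C) (hU : ∀ x, x ∈ A ∪ B ∪ C) : g ^ 3 ≠ 1 := by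
  intro h3
  have e1 : B = actH (isoE (tO g hg)) '' A := hgA ▸ move_eq (tO g hg) A
  have e2 : C = actH (isoE (tO h hh)) '' A := hhA ▸ move_eq (tO h hh) A
  subst e1
  subst e2
  exact order3 (isoE (tO g hg)) (isoE (tO h hh)) (pow_isoE g hg 3 h3) A hA hAB hAC hBC
    (Set.eq_univ_of_forall hU)

theorem third : ∀ i j : Fin 3, i ≠ j → ∃ k : Fin 3, k ≠ i ∧ k ≠ j ∧
    ∀ l : Fin 3, l = i ∨ l = j ∨ l = k := by
  decide

open Pool.Agent.Helper213.Div in
/-- (1) In a measurable division of the sphere into three pieces which are congruent by rotations,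
no rotation `g` with `g³ = 1` carries a piece onto another one.  (2) If `A`, `ρ(A)`, `τ(A)` is a
partition up to null sets and `ρ³ = 1`, then `ρτ` has finite order. -/
theorem result :
    (∀ A : Fin 3 → Set S2, IsDivision A → ∀ i j, i ≠ j → ∀ g : M3, IsRotation g →
      move g (A i) = A j → g ^ 3 ≠ 1) ∧
    (∀ (A : Set S2) (ρ τ : M3), IsRotation ρ → IsRotation τ → PartitionAE A (move ρ A) (move τ A) →
      ρ ^ 3 = 1 → ∃ n : ℕ, 0 < n ∧ (ρ * τ) ^ n = 1) := by
  constructor
  · rintro A ⟨hm, hd, hU, hc⟩ i j hij g hg hgA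
    obtain ⟨k, hki, hkj, hl⟩ := third i j hij
    obtain ⟨h, hh, hhA⟩ := hc i k
    refine main (A i) (A j) (A k) (hm i) g h hg hh hgA hhA (hd i j hij) (hd i k hki.symm)
      (hd j k hkj.symm) ?_
    intro x
    obtain ⟨l, hx⟩ := hU x
    rcases hl l with h | h | h
    · exact Or.inl (Or.inl (h ▸ hx))
    · exact Or.inl (Or.inr (h ▸ hx))
    · exact Or.inr (h ▸ hx)
  · rintro A ρ τ hρ hτ ⟨hA, h1, h2, h12, hU⟩ h3
    by_contra hcon
    push Not at hcon
    have e1 : move ρ A = actH (isoE (tO ρ hρ)) '' A := move_eq (tO ρ hρ) A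
    have e2 : move τ A = actH (isoE (tO τ hτ)) '' A := move_eq (tO τ hτ) A
    rw [e1] at h1
    rw [e2] at h2
    rw [e1, e2] at h12 hU
    refine order3_ae (isoE (tO ρ hρ)) (isoE (tO τ hτ)) (pow_isoE ρ hρ 3 h3) A hA h1 h2 h12 hU ?_
    intro n hn h0
    apply hcon n hn
    rw [← map_mul, ← map_pow] at h0
    have h4 : (tO ρ hρ * tO τ hτ) ^ n = 1 := by
      apply isoE.injective
      rw [h0, map_one]
    have h5 := congrArg Subtype.val h4
    rw [SubmonoidClass.coe_pow] at h5
    exact h5

end Pool.Agent.Results.MP_fdbf44_an.OrderThree
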