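import Pool.Agent.Helper213.Div.Ord7

/-!
# Symmetries of the pieces of a measurable division of the 2-sphere into three congruent pieces

For partitions of the sphere into three Lebesgue measurable pieces which are pairwise congruent by
rotations we show: no rotation `g` with `g³ = 1` carries a piece onto another one; every isometry which
maps a piece to itself up to a null set has finite order (also when the pieces form a partition and
are congruent only up to null sets).
-/

set_option autoImplicit false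

open MeasureTheory Matrix Set

namespace Pool.Agent.Results.MP_fdbf44_an.PieceSymmetry

/-- 3 by 3 real matrices. -/
abbrev M3 : Type := Matrix (Fin 3) (Fin 3) ℝ

/-- The unit sphere of `ℝ³`. -/
abbrev S2 : Type := Metric.sphere (0 : EuclideanSpace ℝ (Fin 3)) 1

/-- Borel sets of the sphere. -/
instance borelS2 : MeasurableSpace S2 := Subtype.instMeasurableSpace

/-- Rotation invariant surface measure. -/
noncomputable def surf : Measure S2 := (volume : Measure (EuclideanSpace ℝ (Fin 3))).toSphere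

/-- Orthogonal matrices, i.e. isometries of the sphere. -/
def IsIsometry (g : M3) : Prop := gᵀ * g = 1

/-- Rotation matrices. -/
def IsRotation (g : M3) : Prop := IsIsometry g ∧ g.det = 1

/-- `x = g y` for points `x`, `y` of the sphere. -/
def IsImage (g : M3) (y x : S2) : Prop := x.1 = WithLp.toLp 2 (g *ᵥ y.1.ofLp)

/-- The image `g(A)` of `A` under the linear map with matrix `g`. -/
def move (g : M3) (A : Set S2) : Set S2 := {x | ∃ y ∈ A, IsImage g y x}

/-- `A 0`, `A 1`, `A 2` are pairwise disjoint with union the sphere. -/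
def IsPartition (A : Fin 3 → Set S2) : Prop :=
  (∀ i j, i ≠ j → Disjoint (A i) (A j)) ∧ ∀ x, ∃ i, x ∈ A i

/-- `A 0`, `A 1`, `A 2` is a partition of the sphere into Lebesgue measurable sets any two of which
are congruent by a rotation. -/
def IsDivision (A : Fin 3 → Set S2) : Prop :=
  (∀ i, NullMeasurableSet (A i) surf) ∧ IsPartition A ∧
    ∀ i j, ∃ g : M3, IsRotation g ∧ move g (A i) = A j

/-- `A` and `B` are equal up to a null set. -/
def Same (A B : Set S2) : Prop := surf (A \ B) = 0 ∧ surf (B \ A) = 0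

/-- The same as `IsDivision`, but everything only up to null sets: `A 0`, `A 1`, `A 2` are Lebesgue
measurable, the intersections of any two of them and the complement of their union are null sets,
and for any two of them some rotation carries the first onto the second up to a null set. -/
def IsDivisionAE (A : Fin 3 → Set S2) : Prop :=
  (∀ i, NullMeasurableSet (A i) surf) ∧ (∀ i j, i ≠ j → surf (A i ∩ A j) = 0) ∧
    surf {x | ∀ i, x ∉ A i} = 0 ∧ ∀ i j, ∃ g : M3, IsRotation g ∧ Same (move g (A i)) (A j)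

/-- `g` maps the line spanned by `u` to itself. -/
def KeepsLine (g : M3) (u : Fin 3 → ℝ) : Prop := g *ᵥ u = u ∨ g *ᵥ u = -u

/-- `g` has finite order. -/
def FiniteOrder (g : M3) : Prop := ∃ n : ℕ, 0 < n ∧ g ^ n = 1

theorem isIso (g : M3) (h : IsRotation g) : IsIsometry g := h.1

open Pool.Agent.Helper213.Div in
/-- underlying orthogonal matrix -/
def tO (g : M3) (h : IsIsometry g) : Pool.Agent.Helper213.Div.O3 :=
  ⟨g, (Matrix.mem_orthogonalGroup_iff' (A := g)).2 h⟩

open Pool.Agent.Helper213.Div in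
theorem move_eq (M : Pool.Agent.Helper213.Div.O3) (A : Set S2) : move M.1 A = actH (isoE M) '' A := by
  ext y
  simp only [move, IsImage, Set.mem_ofPred_eq, Set.mem_image]
  constructor
  · rintro ⟨x, hx, hy⟩
    exact ⟨x, hx, by ext1; rw [actH_coe, isoE_apply, hy]⟩
  · rintro ⟨x, hx, rfl⟩
    exact ⟨x, hx, by rw [actH_coe, isoE_apply]⟩

open Pool.Agent.Helper213.Div in
theorem pow_isoE (g : M3) (h : IsIsometry g) (n : ℕ) (hn : g ^ n = 1) : isoE (tO g h) ^ n = 1 := by
  rw [← map_pow]
  have : tO g h ^ n = 1 := by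
    apply Subtype.ext
    show ((tO g h ^ n : Pool.Agent.Helper213.Div.O3) : M3) = 1
    rw [SubmonoidClass.coe_pow]
    exact hn
  rw [this, map_one]

open Pool.Agent.Helper213.Div in
theorem pow_back (M : Pool.Agent.Helper213.Div.O3) (n : ℕ) (h : isoE M ^ n = 1) : M.1 ^ n = 1 := by
  rw [← map_pow] at h
  have h4 : M ^ n = 1 := by
    apply isoE.injective
    rw [h, map_one]
  have h5 := congrArg Subtype.val h4
  rw [SubmonoidClass.coe_pow] at h5
  exact h5

theorem third : ∀ i j : Fin 3, i ≠ j → ∃ k : Fin 3, k ≠ i ∧ k ≠ j ∧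
    ∀ l : Fin 3, l = i ∨ l = j ∨ l = k := by
  decide

theorem all3 : ∀ i j k : Fin 3, i ≠ j → i ≠ k → j ≠ k → ∀ l : Fin 3, l = i ∨ l = j ∨ l = k := by
  decide

theorem two : ∀ i : Fin 3, ∃ j k : Fin 3, i ≠ j ∧ i ≠ k ∧ j ≠ k := by
  decide

open Pool.Agent.Helper213.Div in
theorem main (A B C : Set S2) (hA : NullMeasurableSet A surf) (g h : M3) (hg : IsIsometry g)
    (hh : IsIsometry h) (hgA : move g A = B) (hhA : move h A = C) (hAB : Disjoint A B)
    (hAC : Disjoint A C) (hBC : Disjoint B C) (hU : ∀ x, x ∈ A ∪ B ∪ C) : g ^ 3 ≠ 1 := by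
  intro h3
  have e1 : B = actH (isoE (tO g hg)) '' A := hgA ▸ move_eq (tO g hg) A
  have e2 : C = actH (isoE (tO h hh)) '' A := hhA ▸ move_eq (tO h hh) A
  subst e1
  subst e2
  exact order3 (isoE (tO g hg)) (isoE (tO h hh)) (pow_isoE g hg 3 h3) A hA hAB hAC hBC
    (Set.eq_univ_of_forall hU)

open Pool.Agent.Helper213.Div in
theorem inv_line (g h : M3) (hg : IsIsometry g) (hh : IsIsometry h) (g2 : g * g = 1)
    (h2 : h * h = 1) : ∃ u : Fin 3 → ℝ, u ≠ 0 ∧ KeepsLine g u ∧ KeepsLine h u := by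
  obtain ⟨u, hu, hT'⟩ := eig (tO g hg * tO h hh)
  obtain ⟨ε, hε, hT⟩ : ∃ ε : ℝ, (ε = 1 ∨ ε = -1) ∧ g *ᵥ (h *ᵥ u) = ε • u := by
    rw [Matrix.mulVec_mulVec]
    rcases hT' with h | h
    · exact ⟨1, Or.inl rfl, by rw [one_smul]; exact h⟩
    · exact ⟨-1, Or.inr rfl, by rw [neg_one_smul]; exact h⟩
  have hεε : ε * ε = 1 := by rcases hε with h | h <;> rw [h] <;> norm_num
  have h1 : h *ᵥ u = ε • (g *ᵥ u) := by
    have := congrArg (fun x => g *ᵥ x) hT
    rw [Matrix.mulVec_mulVec, g2, Matrix.one_mulVec, Matrix.mulVec_smul] at this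
    exact this
  have h3 : h *ᵥ (g *ᵥ u) = ε • u := by
    have := congrArg (fun x => h *ᵥ x) h1
    rw [Matrix.mulVec_mulVec, h2, Matrix.one_mulVec, Matrix.mulVec_smul] at this
    conv_rhs => rw [this]
    rw [smul_smul, hεε, one_smul]
  by_cases hv : u + g *ᵥ u = 0
  · have h4 : g *ᵥ u = -u := (neg_eq_of_add_eq_zero_right hv).symm
    refine ⟨u, hu, Or.inr h4, ?_⟩
    rcases hε with h | h
    · right; rw [h1, h, one_smul, h4]
    · left; rw [h1, h, neg_one_smul, h4, neg_neg]
  · refine ⟨u + g *ᵥ u, hv, Or.inl ?_, ?_⟩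
    · rw [Matrix.mulVec_add, Matrix.mulVec_mulVec, g2, Matrix.one_mulVec, add_comm]
    · have h5 : h *ᵥ (u + g *ᵥ u) = ε • (u + g *ᵥ u) := by
        rw [Matrix.mulVec_add, h1, h3, smul_add, add_comm]
      rcases hε with h | h
      · left; rw [h5, h, one_smul]
      · right; rw [h5, h, neg_one_smul]

theorem cov (A : Fin 3 → Set S2) (i j k : Fin 3) (hl : ∀ l : Fin 3, l = i ∨ l = j ∨ l = k) (x : S2)
    (hx : ∃ l, x ∈ A l) : x ∈ A i ∪ A j ∪ A k := by
  obtain ⟨l, hx⟩ := hx
  rcases hl l with h | h | h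
  · exact Or.inl (Or.inl (h ▸ hx))
  · exact Or.inl (Or.inr (h ▸ hx))
  · exact Or.inr (h ▸ hx)

theorem covAE (A : Fin 3 → Set S2) (i j k : Fin 3) (hl : ∀ l : Fin 3, l = i ∨ l = j ∨ l = k)
    (h : surf {x | ∀ i, x ∉ A i} = 0) : surf (A i ∪ A j ∪ A k)ᶜ = 0 := by
  refine measure_mono_null ?_ h
  intro x hx l hl'
  exact hx (cov A i j k hl x ⟨l, hl'⟩)

open Pool.Agent.Helper213.Div in
/-- Let `A` be a division of the sphere into three congruent pieces.
(1) If it is measurable, no rotation `g` with `g³ = 1` carries a piece onto another one.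
(2) Every isometry mapping a piece to itself up to a null set has finite order; this holds also for
divisions up to null sets.
(3) If, up to null sets, `g` carries `A i` to `A j`, `h` carries `A i` to the third piece and
`g³ = 1`, then `g h` has finite order.
(4) (No measurability.) If `g` carries `A i` onto `A j` and `h` carries `A i` onto the third piece
then `g` and `h` have no common invariant line, and they are not both involutions. -/
theorem result :
    (∀ A : Fin 3 → Set S2, IsDivision A → ∀ i j, i ≠ j → ∀ g : M3, IsRotation g →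
      move g (A i) = A j → g ^ 3 ≠ 1) ∧
    (∀ A : Fin 3 → Set S2, IsDivision A ∨ IsDivisionAE A → ∀ i, ∀ g : M3, IsIsometry g →
      Same (move g (A i)) (A i) → FiniteOrder g) ∧
    (∀ A : Fin 3 → Set S2, IsDivision A ∨ IsDivisionAE A →
      ∀ i j k, i ≠ j → i ≠ k → j ≠ k → ∀ g h : M3,
      IsIsometry g → IsIsometry h → Same (move g (A i)) (A j) → Same (move h (A i)) (A k) →
      g ^ 3 = 1 → FiniteOrder (g * h)) ∧
    (∀ A : Fin 3 → Set S2, IsPartition A → ∀ i j k, i ≠ j → i ≠ k → j ≠ k → ∀ g h : M3,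
      IsIsometry g → IsIsometry h → move g (A i) = A j → move h (A i) = A k →
      (∀ u : Fin 3 → ℝ, u ≠ 0 → ¬ (KeepsLine g u ∧ KeepsLine h u)) ∧
      ¬ (g * g = 1 ∧ h * h = 1)) := by
  have h2 : ∀ A : Fin 3 → Set S2, IsDivisionAE A → ∀ i, ∀ g : M3, IsIsometry g →
      Same (move g (A i)) (A i) → FiniteOrder g := by
    rintro A ⟨hm, hd, hU, hc⟩ i T hT hTA
    obtain ⟨j, k, hij, hik, hjk⟩ := two i
    have hl := all3 i j k hij hik hjk
    obtain ⟨g, hg, hgA⟩ := hc i j
    obtain ⟨h, hh, hhA⟩ := hc i k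
    have e1 := move_eq (tO g (isIso g hg)) (A i)
    have e2 := move_eq (tO h (isIso h hh)) (A i)
    have e3 := move_eq (tO T hT) (A i)
    have s := hgA
    have t := hhA
    have r := hTA
    change Same (move (tO g (isIso g hg)).1 (A i)) (A j) at s
    change Same (move (tO h (isIso h hh)).1 (A i)) (A k) at t
    change Same (move (tO T hT).1 (A i)) (A i) at r
    rw [e1] at s
    rw [e2] at t
    rw [e3] at r
    obtain ⟨n, hn, hn1⟩ := torsion (isoE (tO g (isIso g hg))) (isoE (tO h (isIso h hh)))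
      (isoE (tO T hT)) (A i) (A j) (A k) (hm i) (hd i j hij) (hd i k hik) (hd j k hjk)
      (covAE A i j k hl hU) s.1 s.2 t.1 t.2 r.1 r.2
    exact ⟨n, hn, pow_back (tO T hT) n hn1⟩
  have toAE : ∀ A : Fin 3 → Set S2, IsDivision A ∨ IsDivisionAE A → IsDivisionAE A := by
    rintro A (⟨hm, ⟨hd, hU⟩, hc⟩ | hA)
    · refine ⟨hm, fun i j hij => ?_, ?_, fun i j => ?_⟩
      · rw [(hd i j hij).inter_eq]; exact measure_empty
      · have : {x : S2 | ∀ i, x ∉ A i} = ∅ := by
          ext x
          simp only [mem_ofPred_eq, mem_empty_iff_false, iff_false, not_forall, not_not]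
          exact hU x
        rw [this]; exact measure_empty
      · obtain ⟨g, hg, hgA⟩ := hc i j
        refine ⟨g, hg, ?_, ?_⟩
        · rw [hgA, Set.sdiff_self]; exact measure_empty
        · rw [hgA, Set.sdiff_self]; exact measure_empty
    · exact hA
  refine ⟨?_, ?_, ?_, ?_⟩
  · rintro A ⟨hm, ⟨hd, hU⟩, hc⟩ i j hij g hg hgA
    obtain ⟨k, hki, hkj, hl⟩ := third i j hij
    obtain ⟨h, hh, hhA⟩ := hc i k
    exact main (A i) (A j) (A k) (hm i) g h (isIso g hg) (isIso h hh) hgA hhA (hd i j hij)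
      (hd i k hki.symm) (hd j k hkj.symm) fun x => cov A i j k hl x (hU x)
  · intro A hA
    exact h2 A (toAE A hA)
  · intro A hA' i j k hij hik hjk g h hg hh hgA hhA h3
    obtain ⟨hm, hd, hU, hc⟩ := toAE A hA'
    have hl := all3 i j k hij hik hjk
    have e1 := move_eq (tO g hg) (A i)
    have e2 := move_eq (tO h hh) (A i)
    have s := hgA
    have t := hhA
    change Same (move (tO g hg).1 (A i)) (A j) at s
    change Same (move (tO h hh).1 (A i)) (A k) at t
    rw [e1] at s
    rw [e2] at t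
    obtain ⟨n, hn, hn1⟩ := order3_same (isoE (tO g hg)) (isoE (tO h hh)) (A i) (A j) (A k) (hm i)
      (hd i j hij) (hd i k hik) (hd j k hjk) (covAE A i j k hl hU) s.1 s.2 t.1 t.2
      (pow_isoE g hg 3 h3)
    rw [← map_mul] at hn1
    exact ⟨n, hn, pow_back (tO g hg * tO h hh) n hn1⟩
  · rintro A ⟨hd, hU⟩ i j k hij hik hjk g h hg hh hgA hhA
    have line : ∀ u : Fin 3 → ℝ, u ≠ 0 → ¬ (KeepsLine g u ∧ KeepsLine h u) := ?_
    · refine ⟨line, ?_⟩
      rintro ⟨g2, hh2⟩
      obtain ⟨u, hu, hk⟩ := inv_line g h hg hh g2 hh2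
      exact line u hu hk
    rintro u hu ⟨hgu, hhu⟩
    have hl := all3 i j k hij hik hjk
    have e1 : A j = actH (isoE (tO g hg)) '' (A i) := hgA ▸ move_eq (tO g hg) (A i)
    have e2 : A k = actH (isoE (tO h hh)) '' (A i) := hhA ▸ move_eq (tO h hh) (A i)
    have d1 := hd i j hij
    have d2 := hd i k hik
    have d3 := hd j k hjk
    have d4 : A i ∪ A j ∪ A k = univ := Set.eq_univ_of_forall fun x => cov A i j k hl x (hU x)
    rw [e1] at d1
    rw [e2] at d2
    rw [e1, e2] at d3 d4
    set w : EuclideanSpace ℝ (Fin 3) := WithLp.toLp 2 u with hw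
    have hw0 : w ≠ 0 := by
      intro h0
      apply hu
      exact congrArg WithLp.ofLp h0
    have hn : ‖w‖ ≠ 0 := norm_ne_zero_iff.2 hw0
    let p : S2 := ⟨(‖w‖)⁻¹ • w, by
      rw [mem_sphere_iff_norm, sub_zero, norm_smul, norm_inv, norm_norm, inv_mul_cancel₀ hn]⟩
    let p' : S2 := ⟨-((‖w‖)⁻¹ • w), by
      rw [mem_sphere_iff_norm, sub_zero, norm_neg, norm_smul, norm_inv, norm_norm,
        inv_mul_cancel₀ hn]⟩
    have hkeep : ∀ (g : M3) (hg : IsIsometry g), KeepsLine g u →
        actH (isoE (tO g hg)) p = p ∨ actH (isoE (tO g hg)) p = p' := by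
      intro g hg hk
      have hgw : isoE (tO g hg) w = WithLp.toLp 2 (g *ᵥ u) := rfl
      rcases hk with h | h
      · left
        ext1
        show isoE (tO g hg) ((‖w‖)⁻¹ • w) = (‖w‖)⁻¹ • w
        rw [map_smul, hgw, h]
      · right
        ext1
        show isoE (tO g hg) ((‖w‖)⁻¹ • w) = -((‖w‖)⁻¹ • w)
        rw [map_smul, hgw, h]
        show (‖w‖)⁻¹ • (WithLp.toLp 2 (-u)) = -((‖w‖)⁻¹ • w)
        rw [← smul_neg]; rfl
    exact common_line (isoE (tO g hg)) (isoE (tO h hh)) (A i) d1 d2 d3 d4 p p' rfl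
      (hkeep g hg hgu) (hkeep h hh hhu)

end Pool.Agent.Results.MP_fdbf44_an.PieceSymmetry
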